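import Pool.Agent.Lib.MP_4fbe7c_an.FC.Iface
import Pool.Agent.Lib.MP_4fbe7c_an.SD.Int
import Pool.Agent.Lib.MP_4fbe7c_an.SD.Lyap

/-!
Module FET (helper50): the functional `∫ log u ψ`.
-/

set_option autoImplicit false

open Set

namespace Pool.Agent.Lib.MP_4fbe7c_an.FC.H50

open Pool.Agent.Lib.MP_4fbe7c_an.SD Pool.Agent.Lib.MP_4fbe7c_an.SD.Lyap

theorem ii {L : ℝ} (hL : 0 < L) {f : ℝ → ℝ} (hf : ContinuousOn f (Icc 0 L)) :
    IntervalIntegrable f MeasureTheory.volume 0 L := by
  apply ContinuousOn.intervalIntegrable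
  rwa [uIcc_of_le hL.le]

theorem fet : FetStatement := by
  intro L M P q m ψ ψ' ψ'' Ψ Ψ' N d u v w i hC hT hP hp t ht
  have hL := hC.hL
  have h := hC.sol
  have cu : ∀ i, ContinuousOn (fun p : ℝ × ℝ => u i p.1 p.2) (Ioi 0 ×ˢ Icc 0 L) := fun i =>
    (h.cu i).mono (prod_mono Ioi_subset_Ici_self subset_rfl)
  have spm : ContinuousOn (fun p : ℝ × ℝ => m p.2) (Ioi 0 ×ˢ Icc 0 L) := space_continuousOn hC.hm
  have cψ : ContinuousOn ψ (Icc 0 L) := hT.d1.continuousOn
  have cψ' : ContinuousOn ψ' (Icc 0 L) := hT.d2.continuousOn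
  have spψ : ContinuousOn (fun p : ℝ × ℝ => ψ p.2) (Ioi 0 ×ˢ Icc 0 L) := space_continuousOn cψ
  have su : ∀ i, ContinuousOn (u i t) (Icc 0 L) := fun i => slice_continuousOn ht (cu i)
  have sv : ∀ i, ContinuousOn (v i t) (Icc 0 L) := fun i => slice_continuousOn ht (h.cv i)
  have sw : ∀ i, ContinuousOn (w i t) (Icc 0 L) := fun i => slice_continuousOn ht (h.cw i)
  have hne : ∀ p ∈ (Ioi (0 : ℝ)) ×ˢ (Icc 0 L), u i p.1 p.2 ≠ 0 := fun p hp' =>
    (hp p.1 hp'.1 p.2 hp'.2).ne'
  have sne : ∀ x ∈ Icc 0 L, u i t x ≠ 0 := fun x hx => (hp t ht x hx).ne'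
  have ce1 : ContinuousOn (fun x => v i t x / u i t x) (Icc 0 L) := (sv i).div (su i) sne
  have clog : ContinuousOn (fun x => Real.log (u i t x)) (Icc 0 L) := (su i).log sne
  have dlog : DerivOn L (fun x => Real.log (u i t x)) (fun x => v i t x / u i t x) :=
    fun x hx => (h.dx i t ht x hx).log (sne x hx)
  have h0 : (0 : ℝ) ∈ Icc 0 L := ⟨le_rfl, hL.le⟩
  have hψ0 : ∫ x in (0)..L, ψ x = 0 := by
    rw [integral_deriv hL hT.D2 cψ, hT.BL, hT.B0, sub_zero]
  have hy0 : 0 ≤ yy L u v i t := intervalIntegral.integral_nonneg hL.le fun x _ => sq_nonneg _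
  constructor
  · have e1 : ∫ x in (0)..L, Real.log (u i t x) * ψ x =
        ∫ x in (0)..L, (Real.log (u i t x) - Real.log (u i t 0)) * ψ x := by
      have e2 : ∫ x in (0)..L, (Real.log (u i t x) - Real.log (u i t 0)) * ψ x =
          (∫ x in (0)..L, Real.log (u i t x) * ψ x) -
            ∫ x in (0)..L, Real.log (u i t 0) * ψ x := by
        have I1 : IntervalIntegrable (fun x => Real.log (u i t x) * ψ x)
          MeasureTheory.volume 0 L := ii hL (clog.mul cψ)
        have I2 : IntervalIntegrable (fun x => Real.log (u i t 0) * ψ x)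
          MeasureTheory.volume 0 L := ii hL (continuousOn_const.mul cψ)
        rw [← intervalIntegral.integral_sub I1 I2]
        refine intervalIntegral.integral_congr fun x _ => ?_
        ring
      rw [e2, intervalIntegral.integral_const_mul, hψ0]
      ring
    rw [e1]
    have b1 : ∀ x ∈ Icc 0 L, |(Real.log (u i t x) - Real.log (u i t 0)) * ψ x| ≤
        P * (1 + L * yy L u v i t) := by
      intro x hx
      have o := osc_le (lam := L) (C := yy L u v i t) hL hL dlog ce1 le_rfl h0 hx
      have o2 : |x - 0| / L ≤ 1 := by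
        rw [div_le_one hL, sub_zero, abs_of_nonneg hx.1]
        exact hx.2
      have o3 : |Real.log (u i t x) - Real.log (u i t 0)| ≤ 1 + L * yy L u v i t := by
        have : 0 ≤ L * yy L u v i t := by positivity
        linarith
      rw [abs_mul, mul_comm P]
      exact mul_le_mul o3 (hT.bd x hx).1 (abs_nonneg _) ((abs_nonneg _).trans o3)
    have b2 := intervalIntegral.norm_integral_le_of_norm_le_const (a := 0) (b := L)
      (f := fun x => (Real.log (u i t x) - Real.log (u i t 0)) * ψ x)
      (C := P * (1 + L * yy L u v i t)) (fun x hx => by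
        rw [uIoc_of_le hL.le] at hx
        exact b1 x ⟨hx.1.le, hx.2⟩)
    rw [Real.norm_eq_abs, sub_zero, abs_of_pos hL] at b2
    calc _ ≤ P * (1 + L * yy L u v i t) * L := b2
      _ = _ := by ring
  · let T : ℝ → ℝ → ℝ := fun s x => (d i * w i s x + u i s x * (m x - ∑ j, u j s x)) / u i s x
    have cg : ContinuousOn (fun p : ℝ × ℝ => Real.log (u i p.1 p.2) * ψ p.2)
        (Ioi 0 ×ˢ Icc 0 L) := ((cu i).log hne).mul spψ
    have cT : ContinuousOn (fun p : ℝ × ℝ => T p.1 p.2) (Ioi 0 ×ˢ Icc 0 L) := by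
      have h1 : ContinuousOn (fun p : ℝ × ℝ => ∑ j, u j p.1 p.2) (Ioi 0 ×ˢ Icc 0 L) :=
        continuousOn_finsetSum _ fun j _ => cu j
      exact (((h.cw i).const_mul (d i)).add ((cu i).mul (spm.sub h1))).div (cu i) hne
    have hV := hasDerivAt_integral hL (g := fun s x => Real.log (u i s x) * ψ x)
      (gt := fun s x => T s x * ψ x) cg (cT.mul spψ) (fun s hs x hx =>
        ((h.dt i s hs x hx).log (hp s hs x hx).ne').mul_const (ψ x)) t ht
    refine ⟨_, hV, fun κ hκ => ?_⟩
    have sT : ContinuousOn (T t) (Icc 0 L) := slice_continuousOn ht cT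
    have sR : ContinuousOn (fun x => m x - ∑ k, u k t x) (Icc 0 L) :=
      hC.hm.sub (continuousOn_finsetSum _ fun j _ => su j)
    let J' : ℝ → ℝ := fun x => (w i t x * u i t x - v i t x * v i t x) / u i t x ^ 2 * ψ x +
      v i t x / u i t x * ψ' x
    have hJ : DerivOn L (fun x => v i t x / u i t x * ψ x) J' := fun x hx =>
      ((h.dxx i t ht x hx).div (h.dx i t ht x hx) (sne x hx)).mul (hT.d1 x hx)
    have cJ' : ContinuousOn J' (Icc 0 L) := by
      refine (((((sw i).mul (su i)).sub ((sv i).mul (sv i))).div ((su i).pow 2)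
        fun x hx => pow_ne_zero 2 (sne x hx)).mul cψ).add (ce1.mul cψ')
    have hJint := integral_deriv hL hJ cJ'
    simp only [h.b0 i t ht, h.bL i t ht, zero_div, zero_mul, sub_zero] at hJint
    have hd := hC.hd i
    set A : ℝ := d i * P + (d i * P) ^ 2 * L / (4 * κ) with hA
    have key : ∀ x ∈ Icc 0 L, (m x - ∑ k, u k t x) * ψ x ≤
        T t x * ψ x - d i * J' x + κ / L + A * (v i t x / u i t x) ^ 2 := by
      intro x hx
      have hux := hp t ht x hx
      obtain ⟨q1, q2, -⟩ := hT.bd x hx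
      set a : ℝ := v i t x / u i t x with ha
      have e1 : (w i t x * u i t x - v i t x * v i t x) / u i t x ^ 2 =
          w i t x / u i t x - a ^ 2 := by
        rw [ha]; field_simp
      have e2 : T t x = d i * (w i t x / u i t x) + (m x - ∑ k, u k t x) := by
        simp only [T]
        field_simp
      have e3 : J' x = (w i t x / u i t x - a ^ 2) * ψ x + a * ψ' x := by
        simp only [J']
        rw [e1]
      rw [e2, e3]
      have i1 : -(a ^ 2 * ψ x) ≤ P * a ^ 2 := by
        have := mul_le_mul_of_nonneg_left (abs_le.1 q1).1 (sq_nonneg a)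
        linarith
      have i2 : a * ψ' x ≤ P * |a| := by
        calc a * ψ' x ≤ |a * ψ' x| := le_abs_self _
          _ = |a| * |ψ' x| := abs_mul _ _
          _ ≤ |a| * P := mul_le_mul_of_nonneg_left q2 (abs_nonneg _)
          _ = _ := mul_comm _ _
      have i3 : d i * P * |a| ≤ κ / L + (d i * P) ^ 2 * L / (4 * κ) * a ^ 2 := by
        have e4 : κ / L + (d i * P) ^ 2 * L / (4 * κ) * a ^ 2 - d i * P * |a| =
            (2 * κ - d i * P * L * |a|) ^ 2 / (4 * κ * L) := by
          rw [← sq_abs a]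
          field_simp
          ring
        have : 0 ≤ (2 * κ - d i * P * L * |a|) ^ 2 / (4 * κ * L) := by positivity
        linarith
      have i4 := mul_le_mul_of_nonneg_left i1 hd.le
      have i5 := mul_le_mul_of_nonneg_left i2 hd.le
      have i6 : A * a ^ 2 = d i * (P * a ^ 2) + (d i * P) ^ 2 * L / (4 * κ) * a ^ 2 := by
        rw [hA]; ring
      have i7 : (d i * (w i t x / u i t x) + (m x - ∑ k, u k t x)) * ψ x -
          d i * ((w i t x / u i t x - a ^ 2) * ψ x + a * ψ' x) =
          (m x - ∑ k, u k t x) * ψ x - d i * (-(a ^ 2 * ψ x)) - d i * (a * ψ' x) := by ring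
      rw [i7]
      linarith
    have h2 : ContinuousOn (fun x => T t x * ψ x - d i * J' x + κ / L +
        A * (v i t x / u i t x) ^ 2) (Icc 0 L) :=
      (((sT.mul cψ).sub (cJ'.const_mul (d i))).add continuousOn_const).add
        ((ce1.pow 2).const_mul A)
    have I1 : IntervalIntegrable (fun x => T t x * ψ x) MeasureTheory.volume 0 L :=
      ii hL (sT.mul cψ)
    have I2 : IntervalIntegrable (fun x => d i * J' x) MeasureTheory.volume 0 L :=
      ii hL (cJ'.const_mul (d i))
    have I3 : IntervalIntegrable (fun _ : ℝ => κ / L) MeasureTheory.volume 0 L :=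
      ii hL continuousOn_const
    have I4 : IntervalIntegrable (fun x => A * (v i t x / u i t x) ^ 2)
      MeasureTheory.volume 0 L := ii hL ((ce1.pow 2).const_mul A)
    have I0 : IntervalIntegrable (fun x => (m x - ∑ k, u k t x) * ψ x)
      MeasureTheory.volume 0 L := ii hL (sR.mul cψ)
    have h3 := intervalIntegral.integral_mono_on hL.le I0 (((I1.sub I2).add I3).add I4) key
    have h4 : ∫ x in (0)..L, (T t x * ψ x - d i * J' x + κ / L +
        A * (v i t x / u i t x) ^ 2) = (∫ x in (0)..L, T t x * ψ x) + κ + A * yy L u v i t := by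
      rw [intervalIntegral.integral_add ((I1.sub I2).add I3) I4,
        intervalIntegral.integral_add (I1.sub I2) I3, intervalIntegral.integral_sub I1 I2,
        intervalIntegral.integral_const_mul, intervalIntegral.integral_const_mul, hJint,
        intervalIntegral.integral_const, smul_eq_mul, sub_zero, mul_zero, sub_zero]
      have e5 : L * (κ / L) = κ := by field_simp
      rw [e5]
      rfl
    rw [← h4]
    exact h3

end Pool.Agent.Lib.MP_4fbe7c_an.FC.H50
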