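import Pool.Agent.Lib.MP_4fbe7c_an.FC.Iface2
import Pool.Agent.Lib.MP_4fbe7c_an.FC.H95.Fin
import Pool.Agent.Lib.MP_4fbe7c_an.SD.Main

/-!
Module FINC (helper50): weights for the species of `A`, decay of the others: global stability.
-/

set_option autoImplicit false

open Set MeasureTheory intervalIntegral

namespace Pool.Agent.Lib.MP_4fbe7c_an.FC.H50

open Pool.Agent.Lib.MP_4fbe7c_an.SD Pool.Agent.Lib.MP_4fbe7c_an.SD.H95
open Pool.Agent.Lib.MP_4fbe7c_an.FC.H95

/-- The constant `σ` for the species of `A`. -/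
theorem sigmaA {L : ℝ} {m : ℝ → ℝ} (hL : 0 < L) (hm : ContinuousOn m (Icc 0 L)) {N : ℕ}
    {d : Fin N → ℝ} (i₀ : Fin N) (A : Finset (Fin N)) {θ θ' θ'' : ℝ → ℝ}
    (hθ : Steady L m (d i₀) θ θ' θ'')
    {φ φ' φ'' : Fin N → ℝ → ℝ} (hφ : ∀ j ∈ A, Weight L m θ (d j) (φ j) (φ' j) (φ'' j)) :
    ∃ σ : ℝ, 0 < σ ∧ ∀ j ∈ A, ∀ x ∈ Icc 0 L,
      d j * φ'' j x + (m x - θ x) * φ j x + θ x * (√(φ j x) - √(θ x)) ^ 2 ≤ -σ := by
  classical
  have hθc : ContinuousOn θ (Icc 0 L) := fun x hx => (hθ.d1 x hx).continuousWithinAt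
  have h1 : ∀ j, ∃ σ : ℝ, 0 < σ ∧ (j ∈ A → ∀ x ∈ Icc 0 L,
      d j * φ'' j x + (m x - θ x) * φ j x + θ x * (√(φ j x) - √(θ x)) ^ 2 ≤ -σ) := by
    intro j
    by_cases hj : j ∈ A
    · have hw := hφ j hj
      have hφc : ContinuousOn (φ j) (Icc 0 L) := fun x hx => (hw.d1 x hx).continuousWithinAt
      obtain ⟨σ, hσ, hs⟩ := main_neg hL
        ((((continuousOn_const (c := d j)).mul hw.c2).add ((hm.sub hθc).mul hφc)).add
          (hθc.mul ((hφc.sqrt.sub hθc.sqrt).pow 2))) hw.neg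
      exact ⟨σ, hσ, fun _ => hs⟩
    · exact ⟨1, one_pos, fun h => absurd h hj⟩
  choose s hs1 hs2 using h1
  have hne : (Finset.univ : Finset (Fin N)).Nonempty := ⟨i₀, Finset.mem_univ _⟩
  refine ⟨Finset.univ.inf' hne s, ?_, fun j hj x hx => ?_⟩
  · rw [Finset.lt_inf'_iff]
    exact fun j _ => hs1 j
  · have h2 : Finset.univ.inf' hne s ≤ s j := Finset.inf'_le s (Finset.mem_univ j)
    linarith [hs2 j hj x hx]

theorem finc (h1 : PaStatement) (h2 : YBdStatement) (h3 : SupBStatement) (h4 : LyAStatement)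
    (h5 : GtmStatement) (h6 : ClAStatement) (h7 : PhiStatement) (h8 : LocStatement) :
    FinCStatement := by
  classical
  intro L M m θ θ' θ'' N d i₀ A φ φ' φ'' hL hm hnc hM0 hM hd₀ hdj hA hθ hφ hext
  have hd : ∀ i, 0 < d i := by
    intro i
    by_cases h : i = i₀
    · rw [h]; exact hd₀
    · exact hd₀.trans (hdj i h)
  intro ε hε
  obtain ⟨δ, hδ, hloc⟩ := h8 L m θ θ' θ'' N d i₀ hL hm hd hθ
    (fun j hj => h7 L (d i₀) (d j) m θ θ' θ'' hL hm hnc hd₀ (hdj j hj) hθ) ε hε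
  refine ⟨δ, hδ, ?_⟩
  intro u v w hsol
  refine ⟨fun hinit => hloc u v w 0 hsol le_rfl hinit, ?_⟩
  intro hx
  have hctx : Ctx L M m d u v w := ⟨hL, hM0, hm, hM, hd, hsol⟩
  have hnn := nonneg hL hm hd hsol
  have hpres : Pres L u i₀ := (h1 L M m N d u v w hctx i₀).2 hx
  obtain ⟨T1, hT1, hsup⟩ := h3 L M m N d u v w hctx
  obtain ⟨σ, hσ, hneg⟩ := sigmaA hL hm i₀ A hθ hφ
  -- bounds for the derivatives of all species
  have hder : ∀ k : Fin N, ∃ K T : ℝ, 0 ≤ K ∧ ∀ t, T ≤ t → T1 ≤ t →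
      ∫ x in (0)..L, v k t x ^ 2 ≤ K := by
    intro k
    rcases (h1 L M m N d u v w hctx k).1 with hp | ha
    · obtain ⟨K0, T2, hT2, hyy⟩ := h2 L M m N d u v w k hctx hp
      refine ⟨(M + 1) ^ 2 * max K0 0, T2, by positivity, fun t ht ht1 => ?_⟩
      have ht0 : 0 < t := hT2.trans_le ht
      have hvc : ContinuousOn (v k t) (Icc 0 L) := slice (hsol.cv k) (mem_Ioi.mpr ht0)
      have huc : ContinuousOn (u k t) (Icc 0 L) := slice (hsol.cu k) (mem_Ici.mpr ht0.le)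
      have hcq : ContinuousOn (fun x => (v k t x / u k t x) ^ 2) (Icc 0 L) :=
        (hvc.div huc fun x hx' => (hp t ht0 x hx').ne').pow 2
      calc ∫ x in (0)..L, v k t x ^ 2
          ≤ ∫ x in (0)..L, (M + 1) ^ 2 * (v k t x / u k t x) ^ 2 := by
            refine integral_mono_on hL.le (intble (hvc.pow 2) ⟨le_rfl, hL.le⟩ ⟨hL.le, le_rfl⟩)
              ((intble hcq ⟨le_rfl, hL.le⟩ ⟨hL.le, le_rfl⟩).const_mul _) ?_
            intro x hx'
            have e1 := hp t ht0 x hx'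
            have e2 := hsup t ht1 x hx' k
            have e3 : v k t x ^ 2 = u k t x ^ 2 * (v k t x / u k t x) ^ 2 := by
              field_simp
            rw [e3]
            refine mul_le_mul_of_nonneg_right ?_ (sq_nonneg _)
            exact pow_le_pow_left₀ e1.le e2 2
        _ = (M + 1) ^ 2 * yy L u v k t := by
            rw [intervalIntegral.integral_const_mul]; rfl
        _ ≤ (M + 1) ^ 2 * max K0 0 :=
            mul_le_mul_of_nonneg_left ((hyy t ht).trans (le_max_left _ _)) (sq_nonneg _)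
    · refine ⟨0, 0, le_rfl, fun t _ ht1 => ?_⟩
      have ht0 : 0 < t := hT1.trans_le ht1
      have hz : DerivOn L (u k t) (fun _ => (0 : ℝ)) := fun x hx' =>
        (hasDerivWithinAt_const x (Icc 0 L) (0 : ℝ)).congr
          (fun y hy => ha t ht0.le y hy) (ha t ht0.le x hx')
      have hv0 : ∀ x ∈ Icc 0 L, v k t x = 0 := uniq hL (hsol.dx k t ht0) hz
      have e1 : ∫ x in (0)..L, v k t x ^ 2 = ∫ _x in (0)..L, (0 : ℝ) := by
        refine intervalIntegral.integral_congr fun x hx' => ?_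
        rw [uIcc_of_le hL.le] at hx'
        simp [hv0 x hx']
      rw [e1]
      simp
  choose Kd Td hKd hTd using hder
  -- decay of the other species
  have hdec : ∀ k : Fin N, ∃ c C T : ℝ, 0 < c ∧ 0 ≤ C ∧ 0 ≤ T ∧ (k ≠ i₀ → k ∉ A →
      ∀ t, T ≤ t → ∀ x ∈ Icc 0 L, u k t x ≤ C * Real.exp (-(c * t))) := by
    intro k
    by_cases hk : k ≠ i₀ ∧ k ∉ A
    · rcases (h1 L M m N d u v w hctx k).1 with hp | ha
      · obtain ⟨c, C, T, hc, hb⟩ := hext u v w hsol hpres k hk.1 hk.2 hp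
        refine ⟨c, max C 0, max T 0, hc, le_max_right _ _, le_max_right _ _, fun _ _ t ht x hx' => ?_⟩
        refine (hb t ((le_max_left _ _).trans ht) x hx').trans ?_
        exact mul_le_mul_of_nonneg_right (le_max_left _ _) (Real.exp_pos _).le
      · refine ⟨1, 0, 0, one_pos, le_rfl, le_rfl, fun _ _ t ht x hx' => ?_⟩
        rw [ha t ht x hx']
        simp
    · exact ⟨1, 0, 0, one_pos, le_rfl, le_rfl, fun h h' => absurd ⟨h, h'⟩ hk⟩
  choose ck Ck Tk hck hCk hTk hdk using hdec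
  have : Nonempty (Fin N) := ⟨i₀⟩
  obtain ⟨jc, hjc⟩ := Finite.exists_min ck
  obtain ⟨jT, hjT⟩ := Finite.exists_max Tk
  obtain ⟨jD, hjD⟩ := Finite.exists_max Td
  set c : ℝ := ck jc with hc
  set C : ℝ := ∑ k, Ck k with hC
  have hc0 : 0 < c := hck jc
  have hC0 : 0 ≤ C := Finset.sum_nonneg fun k _ => hCk k
  have hdk' : ∀ k, k ≠ i₀ → k ∉ A → ∀ t, Tk jT ≤ t → ∀ x ∈ Icc 0 L,
      u k t x ≤ Ck k * Real.exp (-(c * t)) := by
    intro k hk hk' t ht x hx'
    have ht0 : 0 ≤ t := (hTk jT).trans ht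
    refine (hdk k hk hk' t ((hjT k).trans ht) x hx').trans ?_
    refine mul_le_mul_of_nonneg_left ?_ (hCk k)
    apply Real.exp_le_exp.mpr
    have : c * t ≤ ck k * t := mul_le_mul_of_nonneg_right (hjc k) ht0
    linarith
  -- the bound for the perturbation
  have hθc := st_c0 hθ
  have hθc' := st_c1 hθ
  obtain ⟨Th, hTh, hThb⟩ := exists_bound hθc
  have hsum : ∀ t, Tk jT ≤ t → ∀ x ∈ Icc 0 L,
      ∑ k ∈ (Finset.univ.erase i₀) \ A, u k t x ≤ C * Real.exp (-(c * t)) := by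
    intro t ht x hx'
    have ht0 : 0 ≤ t := (hTk jT).trans ht
    calc ∑ k ∈ (Finset.univ.erase i₀) \ A, u k t x
        ≤ ∑ k ∈ (Finset.univ.erase i₀) \ A, Ck k * Real.exp (-(c * t)) := by
          refine Finset.sum_le_sum fun k hk => ?_
          rw [Finset.mem_sdiff, Finset.mem_erase] at hk
          exact hdk' k hk.1.1 hk.2 t ht x hx'
      _ ≤ ∑ k, Ck k * Real.exp (-(c * t)) := by
          refine Finset.sum_le_sum_of_subset_of_nonneg (Finset.subset_univ _) fun k _ _ => ?_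
          exact mul_nonneg (hCk k) (Real.exp_pos _).le
      _ = C * Real.exp (-(c * t)) := by rw [hC, Finset.sum_mul]
  have hint : ∀ t, Tk jT ≤ t → 0 < t →
      ∫ x in (0)..L, θ x ^ 2 * ∑ k ∈ (Finset.univ.erase i₀) \ A, u k t x ≤
        (Th ^ 2 * C * L) * Real.exp (-(c * t)) := by
    intro t ht ht0
    have hcont : ContinuousOn (fun x => θ x ^ 2 * ∑ k ∈ (Finset.univ.erase i₀) \ A, u k t x)
        (Icc 0 L) := by
      refine (hθc.pow 2).mul (continuousOn_finsetSum _ fun k _ => ?_)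
      exact slice (hsol.cu k) (mem_Ici.mpr ht0.le)
    calc ∫ x in (0)..L, θ x ^ 2 * ∑ k ∈ (Finset.univ.erase i₀) \ A, u k t x
        ≤ ∫ _x in (0)..L, Th ^ 2 * (C * Real.exp (-(c * t))) := by
          refine integral_mono_on hL.le (intble hcont ⟨le_rfl, hL.le⟩ ⟨hL.le, le_rfl⟩)
            intervalIntegrable_const ?_
          intro x hx'
          have e1 : 0 ≤ ∑ k ∈ (Finset.univ.erase i₀) \ A, u k t x :=
            Finset.sum_nonneg fun k _ => hnn k t ht0.le x hx'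
          have e2 : θ x ^ 2 ≤ Th ^ 2 := by
            have := hThb x hx'
            rw [← sq_abs (θ x)]
            exact pow_le_pow_left₀ (abs_nonneg _) this 2
          exact mul_le_mul e2 (hsum t ht x hx') e1 (by positivity)
      _ = (Th ^ 2 * C * L) * Real.exp (-(c * t)) := by
          rw [intervalIntegral.integral_const, smul_eq_mul]
          ring
  -- the constant `δ'`
  obtain ⟨δ', hδ', hcla⟩ := h6 L σ (∑ k, Kd k) δ θ θ' N i₀ A φ hL hσ hδ hθ.d1 hθc' hθ.pos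
    (fun j hj => fun x hx' => ((hφ j hj).d1 x hx').continuousWithinAt) hA
  obtain ⟨⟨KV, hKV⟩, hlya⟩ := h4 L M σ m θ θ' θ'' N d u v w i₀ A φ φ' φ'' hctx hθ hA hσ.le hφ hneg
    hpres
  have hex : ∀ t : ℝ, ∃ F' : ℝ, 0 < t → HasDerivAt (VA L i₀ A θ φ u) F' t ∧
        F' ≤ -DA L σ i₀ A θ φ (fun k => u k t) +
          ∫ x in (0)..L, θ x ^ 2 * ∑ k ∈ (Finset.univ.erase i₀) \ A, u k t x := by
    intro t
    by_cases ht : 0 < t
    · obtain ⟨F', hF'⟩ := hlya t ht
      exact ⟨F', fun _ => hF'⟩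
    · exact ⟨0, fun h => absurd h ht⟩
  choose F' hF' using hex
  set T4 : ℝ := max (Tk jT) 1 with hT4
  have hT40 : 0 < T4 := lt_of_lt_of_le one_pos (le_max_right _ _)
  obtain ⟨t, ht1, ht2, hDis⟩ := h5 (VA L i₀ A θ φ u) F'
    (fun t => DA L σ i₀ A θ φ (fun k => u k t)) T4 c (Th ^ 2 * C * L) KV hc0
    (fun t ht => (hF' t (hT40.trans_le ht)).1)
    (fun t ht => by
      have e1 := (hF' t (hT40.trans_le ht)).2
      have e2 := hint t ((le_max_left _ _).trans ht) (hT40.trans_le ht)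
      linarith)
    (fun t ht => hKV t (hT40.trans_le ht))
    δ' (max (max T1 (Td jD)) (C / (c * δ))) hδ'
  have ht0 : 0 < t := hT40.trans_le ht2
  have hTt1 : T1 ≤ t := ((le_max_left _ _).trans (le_max_left _ _)).trans ht1
  have hTt2 : Td jD ≤ t := ((le_max_right _ _).trans (le_max_left _ _)).trans ht1
  have hTt5 : C / (c * δ) ≤ t := (le_max_right _ _).trans ht1
  have hTtk : Tk jT ≤ t := (le_max_left _ _).trans ht2
  have hfin := hcla (fun k => u k t) (fun k => v k t) (fun k => hsol.dx k t ht0)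
    (fun k => slice (hsol.cv k) (mem_Ioi.mpr ht0)) (fun k x hx' => hnn k t ht0.le x hx')
    (fun k => (hTd k t ((hjD k).trans hTt2) hTt1).trans
      (Finset.single_le_sum (fun k _ => hKd k) (Finset.mem_univ k))) hDis.le
  refine ⟨t, hloc u v w t hsol ht0.le ?_⟩
  intro x hx'
  refine ⟨(hfin x hx').1, ?_⟩
  intro j hj
  by_cases hj1 : j ∈ A
  · exact (hfin x hx').2 j hj1
  · have e1 := hdk' j hj hj1 t hTtk x hx'
    have e2 : Ck j ≤ C := Finset.single_le_sum (fun k _ => hCk k) (Finset.mem_univ j)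
    have e3 := exp_small (C := C) hc0 hδ hTt5
    have e4 : Ck j * Real.exp (-(c * t)) ≤ C * Real.exp (-(c * t)) :=
      mul_le_mul_of_nonneg_right e2 (Real.exp_pos _).le
    linarith

end Pool.Agent.Lib.MP_4fbe7c_an.FC.H50
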