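import Pool.Agent.Lib.MP_4fbe7c_an.FC.Iface2
import Pool.Agent.Lib.MP_4fbe7c_an.SD.Lyap
import Pool.Agent.Lib.MP_4fbe7c_an.SD.Vmin

/-!
Module LYA (helper50): the Lyapunov functional with weights for the species of a set `A`.
-/

set_option autoImplicit false

open Set

namespace Pool.Agent.Lib.MP_4fbe7c_an.FC.H50

open Pool.Agent.Lib.MP_4fbe7c_an.SD Pool.Agent.Lib.MP_4fbe7c_an.SD.Lyap

theorem sum_erase_ite {N : ℕ} (i₀ : Fin N) (A : Finset (Fin N)) (hA : i₀ ∉ A)
    (f : Fin N → ℝ) : ∑ j ∈ Finset.univ.erase i₀, (if j ∈ A then f j else 0) = ∑ j ∈ A, f j := by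
  rw [← Finset.sum_filter]
  refine Finset.sum_congr ?_ fun _ _ => rfl
  ext j
  simp only [Finset.mem_filter, Finset.mem_erase, Finset.mem_univ, and_true]
  exact ⟨fun h => h.2, fun h => ⟨fun e => hA (e ▸ h), h⟩⟩

/-- The pointwise inequality for the species of `A`. -/
theorem pointwiseA {N : ℕ} (i₀ : Fin N) (A : Finset (Fin N)) (hA : i₀ ∉ A) (a U σ : ℝ)
    (y φ β : Fin N → ℝ) (ha : 0 < a)
    (hσ : 0 ≤ σ) (hy : ∀ i, 0 ≤ y i) (hU : U = ∑ i, y i)
    (hφ : ∀ j ∈ A, 0 < φ j)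
    (hβ : ∀ j ∈ A, β j - a ^ 2 * φ j + a ^ 2 * (√(φ j) - a) ^ 2 ≤ -σ) :
    a ^ 2 * (a ^ 2 - U) * y i₀ + (∑ j ∈ A, (β j - φ j * U) * y j)
      + a ^ 4 * (U - a ^ 2)
    ≤ -σ * (∑ j ∈ A, y j)
      - (a * y i₀ + (∑ j ∈ A, √(φ j) * y j) - a ^ 3) ^ 2 +
      a ^ 4 * ∑ k ∈ (Finset.univ.erase i₀) \ A, y k := by
  classical
  set ζ : ℝ := ∑ k ∈ (Finset.univ.erase i₀) \ A, y k with hζ
  have hζ0 : 0 ≤ ζ := Finset.sum_nonneg fun k _ => hy k
  let y' : Fin N → ℝ := fun j => if j = i₀ then y i₀ else if j ∈ A then y j else 0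
  let φ' : Fin N → ℝ := fun j => if j ∈ A then φ j else a ^ 2
  let β' : Fin N → ℝ := fun j => if j ∈ A then β j else a ^ 4 - σ
  have hsub : A ⊆ Finset.univ.erase i₀ := fun j hj =>
    Finset.mem_erase.2 ⟨fun e => hA (e ▸ hj), Finset.mem_univ _⟩
  have hyi : y' i₀ = y i₀ := by simp [y']
  have hys : ∀ j ∈ Finset.univ.erase i₀, y' j = if j ∈ A then y j else 0 := by
    intro j hj
    simp only [y', if_neg (Finset.ne_of_mem_erase hj)]
  have hU1 : U = (∑ i, y' i) + ζ := by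
    rw [hU, ← Finset.add_sum_erase _ _ (Finset.mem_univ i₀),
      ← Finset.add_sum_erase _ y' (Finset.mem_univ i₀), hyi, Finset.sum_congr rfl hys,
      sum_erase_ite i₀ A hA, hζ, ← Finset.sum_sdiff hsub]
    ring
  have hP := pointwise i₀ a (∑ i, y' i) σ y' φ' β' ha hσ (fun i => by
      simp only [y']
      split_ifs
      · exact hy _
      · exact hy _
      · exact le_rfl) rfl (fun j _ => by
      simp only [φ']
      split_ifs with h
      · exact hφ j h
      · positivity) (fun j _ => by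
      simp only [φ', β']
      split_ifs with h
      · exact hβ j h
      · rw [Real.sqrt_sq ha.le]
        apply le_of_eq
        ring)
  have s1 : ∑ j ∈ Finset.univ.erase i₀, (β' j - φ' j * ∑ i, y' i) * y' j =
      ∑ j ∈ A, (β j - φ j * ∑ i, y' i) * y j := by
    rw [← sum_erase_ite i₀ A hA]
    refine Finset.sum_congr rfl fun j hj => ?_
    rw [hys j hj]
    simp only [β', φ']
    split_ifs
    · rfl
    · ring
  have s2 : ∑ j ∈ Finset.univ.erase i₀, y' j = ∑ j ∈ A, y j := by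
    rw [← sum_erase_ite i₀ A hA]
    exact Finset.sum_congr rfl hys
  have s3 : ∑ j ∈ Finset.univ.erase i₀, √(φ' j) * y' j = ∑ j ∈ A, √(φ j) * y j := by
    rw [← sum_erase_ite i₀ A hA]
    refine Finset.sum_congr rfl fun j hj => ?_
    rw [hys j hj]
    simp only [φ']
    split_ifs
    · rfl
    · ring
  rw [s1, s2, s3, hyi] at hP
  have s4 : ∑ j ∈ A, (β j - φ j * U) * y j =
      (∑ j ∈ A, (β j - φ j * ∑ i, y' i) * y j) - ζ * ∑ j ∈ A, φ j * y j := by
    rw [hU1, Finset.mul_sum, ← Finset.sum_sub_distrib]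
    exact Finset.sum_congr rfl fun j _ => by ring
  have s5 : 0 ≤ ∑ j ∈ A, φ j * y j :=
    Finset.sum_nonneg fun j hj => mul_nonneg (hφ j hj).le (hy j)
  have s6 := mul_nonneg hζ0 s5
  have s7 : 0 ≤ a ^ 2 * (ζ * y i₀) := by
    have := hy i₀
    positivity
  rw [s4, hU1]
  generalize (∑ j ∈ A, (β j - φ j * ∑ i, y' i) * y j) = X at *
  generalize (∑ i, y' i) = U' at *
  have e1 : a ^ 2 * (a ^ 2 - (U' + ζ)) * y i₀ = a ^ 2 * (a ^ 2 - U') * y i₀ -
      a ^ 2 * (ζ * y i₀) := by ring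
  have e2 : a ^ 4 * (U' + ζ - a ^ 2) = a ^ 4 * (U' - a ^ 2) + a ^ 4 * ζ := by ring
  rw [e1, e2]
  linarith

theorem lya : LyAStatement := by
  intro L M σ m θ θ' θ'' N d u v w i₀ A φ φ' φ'' hC hθ hA hσ hφ hneg hpos
  have hL := hC.hL
  have hm := hC.hm
  have hd := hC.hd
  have h := hC.sol
  refine ⟨?_, ?_⟩
  · have cθ : ContinuousOn θ (Icc 0 L) := derivOn_continuousOn hθ.d1
    have hu0 := nonneg hL hm hd h
    refine ⟨-∫ x in (0)..L, (θ x ^ 2 - θ x ^ 2 * Real.log (θ x)), fun t ht => ?_⟩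
    have su : ∀ i, ContinuousOn (u i t) (Icc 0 L) := fun i =>
      slice_continuousOn (mem_Ici.2 ht.le) (h.cu i)
    rw [neg_neg]
    refine intervalIntegral.integral_mono_on hL.le ?_ ?_ ?_
    · apply ContinuousOn.intervalIntegrable
      rw [uIcc_of_le hL.le]
      exact (cθ.pow 2).sub ((cθ.pow 2).mul (cθ.log fun x hx => (hθ.pos x hx).ne'))
    · apply ContinuousOn.intervalIntegrable
      rw [uIcc_of_le hL.le]
      refine ((cθ.mul (su i₀)).add (continuousOn_finsetSum _ fun j hj => ?_)).sub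
        ((cθ.pow 2).mul ((su i₀).log fun x hx => (hpos t ht x hx).ne'))
      exact (derivOn_continuousOn (hφ j hj).d1).mul (su j)
    · intro x hx
      have e1 := log_lower (hθ.pos x hx) (hpos t ht x hx)
      have e2 : 0 ≤ ∑ j ∈ A, φ j x * u j t x :=
        Finset.sum_nonneg fun j hj => mul_nonneg ((hφ j hj).pos x hx).le (hu0 j t ht.le x hx)
      have e1' : θ x ^ 2 - θ x ^ 2 * Real.log (θ x) ≤
          θ x * u i₀ t x - θ x ^ 2 * Real.log (u i₀ t x) := e1
      linarith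
  intro t ht
  have hu0 := nonneg hL hm hd h
  have cθ : ContinuousOn θ (Icc 0 L) := derivOn_continuousOn hθ.d1
  have cθ' : ContinuousOn θ' (Icc 0 L) := derivOn_continuousOn hθ.d2
  have cφ : ∀ j ∈ A, ContinuousOn (φ j) (Icc 0 L) := fun j hj => derivOn_continuousOn (hφ j hj).d1
  have cφ' : ∀ j ∈ A, ContinuousOn (φ' j) (Icc 0 L) := fun j hj => derivOn_continuousOn (hφ j hj).d2
  have hd0 : d i₀ ≠ 0 := (hd i₀).ne'
  have cθ'' : ContinuousOn θ'' (Icc 0 L) := by
    have h1 : ContinuousOn (fun x => -(θ x * (m x - θ x)) / d i₀) (Icc 0 L) := by fun_prop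
    refine h1.congr fun x hx => ?_
    have h2 := hθ.eq x hx
    show θ'' x = -(θ x * (m x - θ x)) / d i₀
    rw [eq_div_iff hd0]
    linarith
  have cu : ∀ i, ContinuousOn (fun p : ℝ × ℝ => u i p.1 p.2) (Ioi 0 ×ˢ Icc 0 L) := fun i =>
    (h.cu i).mono (prod_mono Ioi_subset_Ici_self subset_rfl)
  -- the integrand and its time derivative
  let g : ℝ → ℝ → ℝ := fun s x => θ x * u i₀ s x +
    (∑ j ∈ A, φ j x * u j s x) - θ x ^ 2 * Real.log (u i₀ s x)
  let ut : Fin N → ℝ → ℝ → ℝ := fun i s x => d i * w i s x + u i s x * (m x - ∑ j, u j s x)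
  let gt : ℝ → ℝ → ℝ := fun s x => θ x * ut i₀ s x +
    (∑ j ∈ A, φ j x * ut j s x) - θ x ^ 2 * (ut i₀ s x / u i₀ s x)
  have spθ : ContinuousOn (fun p : ℝ × ℝ => θ p.2) (Ioi 0 ×ˢ Icc 0 L) := space_continuousOn cθ
  have spm : ContinuousOn (fun p : ℝ × ℝ => m p.2) (Ioi 0 ×ˢ Icc 0 L) := space_continuousOn hm
  have cut : ∀ i, ContinuousOn (fun p : ℝ × ℝ => ut i p.1 p.2) (Ioi 0 ×ˢ Icc 0 L) := by
    intro i
    have h1 : ContinuousOn (fun p : ℝ × ℝ => ∑ j, u j p.1 p.2) (Ioi 0 ×ˢ Icc 0 L) :=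
      continuousOn_finsetSum _ fun j _ => cu j
    exact ((h.cw i).const_mul (d i)).add ((cu i).mul (spm.sub h1))
  have hne : ∀ p ∈ (Ioi (0 : ℝ)) ×ˢ (Icc 0 L), u i₀ p.1 p.2 ≠ 0 := fun p hp =>
    (hpos p.1 hp.1 p.2 hp.2).ne'
  have cg : ContinuousOn (fun p : ℝ × ℝ => g p.1 p.2) (Ioi 0 ×ˢ Icc 0 L) := by
    refine ((spθ.mul (cu i₀)).add (continuousOn_finsetSum _ fun j hj => ?_)).sub
      ((spθ.pow 2).mul ((cu i₀).log hne))
    exact (space_continuousOn (cφ j hj)).mul (cu j)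
  have cgt : ContinuousOn (fun p : ℝ × ℝ => gt p.1 p.2) (Ioi 0 ×ˢ Icc 0 L) := by
    refine ((spθ.mul (cut i₀)).add (continuousOn_finsetSum _ fun j hj => ?_)).sub
      ((spθ.pow 2).mul ((cut i₀).div (cu i₀) hne))
    exact (space_continuousOn (cφ j hj)).mul (cut j)
  have hV := hasDerivAt_integral hL cg cgt (fun s hs x hx => by
    have h1 := h.dt i₀ s hs x hx
    have h2 : ∀ j ∈ A, HasDerivAt (fun r => φ j x * u j r x)
        (φ j x * ut j s x) s := fun j _ => (h.dt j s hs x hx).const_mul _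
    exact ((h1.const_mul (θ x)).add (HasDerivAt.fun_sum h2)).sub
      ((h1.log (hpos s hs x hx).ne').const_mul (θ x ^ 2))) t ht
  refine ⟨∫ x in (0)..L, gt t x, hV, ?_⟩
  -- the divergence term
  let F : ℝ → ℝ := fun x => d i₀ * (θ x * v i₀ t x - θ' x * u i₀ t x) +
    (∑ j ∈ A, d j * (φ j x * v j t x - φ' j x * u j t x)) -
    d i₀ * (θ x ^ 2 * (v i₀ t x / u i₀ t x)) + d i₀ * (θ x * θ' x)
  let F' : ℝ → ℝ := fun x => d i₀ * (θ x * w i₀ t x - θ'' x * u i₀ t x) +
    (∑ j ∈ A, d j * (φ j x * w j t x - φ'' j x * u j t x)) -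
    d i₀ * (2 * θ x * θ' x * (v i₀ t x / u i₀ t x) +
      θ x ^ 2 * ((w i₀ t x * u i₀ t x - v i₀ t x ^ 2) / u i₀ t x ^ 2)) +
    d i₀ * (θ' x ^ 2 + θ x * θ'' x)
  have hF : DerivOn L F F' := by
    intro x hx
    have e1 := hθ.d1 x hx
    have e2 := hθ.d2 x hx
    have e3 := h.dx i₀ t ht x hx
    have e4 := h.dxx i₀ t ht x hx
    have hu := (hpos t ht x hx).ne'
    have a1 := ((e1.mul e4).sub (e2.mul e3)).const_mul (d i₀)
    have a2 : ∀ j ∈ A, HasDerivWithinAt
        (fun y => d j * (φ j y * v j t y - φ' j y * u j t y))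
        (d j * ((φ' j x * v j t x + φ j x * w j t x) -
          (φ'' j x * u j t x + φ' j x * v j t x))) (Icc 0 L) x := by
      intro j hj
      have hj' := hj
      exact ((((hφ j hj').d1 x hx).mul (h.dxx j t ht x hx)).sub
        (((hφ j hj').d2 x hx).mul (h.dx j t ht x hx))).const_mul (d j)
    have a3 := ((e1.pow 2).mul (e4.div e3 hu)).const_mul (d i₀)
    have a4 := (e1.mul e2).const_mul (d i₀)
    have a5 := ((a1.add (HasDerivWithinAt.fun_sum a2)).sub a3).add a4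
    refine a5.congr_deriv ?_
    have hs : ∑ j ∈ A, d j * ((φ' j x * v j t x + φ j x * w j t x) -
          (φ'' j x * u j t x + φ' j x * v j t x)) =
        ∑ j ∈ A, d j * (φ j x * w j t x - φ'' j x * u j t x) :=
      Finset.sum_congr rfl fun j _ => by ring
    rw [hs]
    simp only [F', Pi.div_apply, Pi.pow_apply]
    push_cast
    ring
  have hF0 : F 0 = 0 := by
    have h0 : (0 : ℝ) ∈ Icc 0 L := ⟨le_rfl, hL.le⟩
    simp only [F]
    rw [h.b0 i₀ t ht, hθ.b0, Finset.sum_eq_zero]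
    · simp
    · intro j hj
      rw [h.b0 j t ht, (hφ j hj).b0]
      simp
  have hFL : F L = 0 := by
    simp only [F]
    rw [h.bL i₀ t ht, hθ.bL, Finset.sum_eq_zero]
    · simp
    · intro j hj
      rw [h.bL j t ht, (hφ j hj).bL]
      simp
  have su : ∀ i, ContinuousOn (u i t) (Icc 0 L) := fun i => slice_continuousOn ht (cu i)
  have sv : ∀ i, ContinuousOn (v i t) (Icc 0 L) := fun i => slice_continuousOn ht (h.cv i)
  have sw : ∀ i, ContinuousOn (w i t) (Icc 0 L) := fun i => slice_continuousOn ht (h.cw i)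
  have sne : ∀ x ∈ Icc 0 L, u i₀ t x ≠ 0 := fun x hx => (hpos t ht x hx).ne'
  have cF' : ContinuousOn F' (Icc 0 L) := by
    have s1 : ContinuousOn (fun x => ∑ j ∈ A,
        d j * (φ j x * w j t x - φ'' j x * u j t x)) (Icc 0 L) := by
      refine continuousOn_finsetSum _ fun j hj => ?_
      have hj' := hj
      exact (((cφ j hj').mul (sw j)).sub ((hφ j hj').c2.mul (su j))).const_mul (d j)
    have s2 : ContinuousOn (fun x => v i₀ t x / u i₀ t x) (Icc 0 L) := (sv i₀).div (su i₀) sne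
    have s3 : ContinuousOn (fun x => (w i₀ t x * u i₀ t x - v i₀ t x ^ 2) / u i₀ t x ^ 2)
        (Icc 0 L) := (((sw i₀).mul (su i₀)).sub ((sv i₀).pow 2)).div ((su i₀).pow 2)
          fun x hx => pow_ne_zero 2 (sne x hx)
    exact (((((cθ.mul (sw i₀)).sub (cθ''.mul (su i₀))).const_mul (d i₀)).add s1).sub
      (((((cθ.const_mul 2).mul cθ').mul s2).add ((cθ.pow 2).mul s3)).const_mul (d i₀))).add
      (((cθ'.pow 2).add (cθ.mul cθ'')).const_mul (d i₀))
  have hint := integral_deriv hL hF cF'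
  rw [hF0, hFL, sub_zero] at hint
  have sgt : ContinuousOn (gt t) (Icc 0 L) := slice_continuousOn ht cgt
  have hII : ∀ f : ℝ → ℝ, ContinuousOn f (Icc 0 L) →
      IntervalIntegrable f MeasureTheory.volume 0 L := by
    intro f hf
    apply ContinuousOn.intervalIntegrable
    rwa [uIcc_of_le hL.le]
  have e : ∫ x in (0)..L, gt t x = ∫ x in (0)..L, (gt t x - F' x) := by
    rw [intervalIntegral.integral_sub (hII _ sgt) (hII _ cF'), hint, sub_zero]
  have sQ : ContinuousOn (fun x => σ * (∑ j ∈ A, u j t x) +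
      (√(θ x) * u i₀ t x + (∑ j ∈ A, √(φ j x) * u j t x) - √(θ x) ^ 3) ^ 2) (Icc 0 L) := by
    have s4 : ContinuousOn (fun x => ∑ j ∈ A, u j t x) (Icc 0 L) :=
      continuousOn_finsetSum _ fun j _ => su j
    have s5 : ContinuousOn (fun x => ∑ j ∈ A, √(φ j x) * u j t x)
        (Icc 0 L) := by
      refine continuousOn_finsetSum _ fun j hj => ?_
      exact ((cφ j hj).sqrt).mul (su j)
    exact (s4.const_mul σ).add ((((cθ.sqrt.mul (su i₀)).add s5).sub (cθ.sqrt.pow 3)).pow 2)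
  have sZ : ContinuousOn (fun x => θ x ^ 2 * ∑ k ∈ (Finset.univ.erase i₀) \ A, u k t x)
      (Icc 0 L) := (cθ.pow 2).mul (continuousOn_finsetSum _ fun j _ => su j)
  have hR : -DA L σ i₀ A θ φ (fun k => u k t) +
      ∫ x in (0)..L, θ x ^ 2 * ∑ k ∈ (Finset.univ.erase i₀) \ A, u k t x =
      ∫ x in (0)..L, (-(σ * (∑ j ∈ A, u j t x) +
        (√(θ x) * u i₀ t x + (∑ j ∈ A, √(φ j x) * u j t x) - √(θ x) ^ 3) ^ 2) +
        θ x ^ 2 * ∑ k ∈ (Finset.univ.erase i₀) \ A, u k t x) := by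
    have I1 : IntervalIntegrable (fun x => -(σ * (∑ j ∈ A, u j t x) +
        (√(θ x) * u i₀ t x + (∑ j ∈ A, √(φ j x) * u j t x) - √(θ x) ^ 3) ^ 2))
        MeasureTheory.volume 0 L := hII _ sQ.neg
    rw [intervalIntegral.integral_add I1 (hII _ sZ), intervalIntegral.integral_neg]
    rfl
  rw [e, hR]
  refine intervalIntegral.integral_mono_on hL.le (hII _ (sgt.sub cF'))
    (hII _ (sQ.neg.add sZ)) ?_
  · intro x hx
    have hθx := hθ.pos x hx
    have hux := sne x hx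
    have hsq : √(θ x) ^ 2 = θ x := Real.sq_sqrt hθx.le
    have P := pointwiseA i₀ A hA (√(θ x)) (∑ j, u j t x) σ (fun i => u i t x) (fun j => φ j x)
      (fun j => d j * φ'' j x + m x * φ j x) (Real.sqrt_pos.2 hθx) hσ
      (fun i => hu0 i t ht.le x hx) rfl (fun j hj => (hφ j hj).pos x hx)
      (fun j hj => by
        have := hneg j hj x hx
        rw [hsq]
        linarith)
    have h4 : √(θ x) ^ 4 = θ x ^ 2 := by
      rw [show (4 : ℕ) = 2 * 2 from rfl, pow_mul, hsq]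
    rw [h4, hsq] at P
    have E : gt t x - F' x = -(d i₀ * (θ x * (v i₀ t x / u i₀ t x) - θ' x) ^ 2) +
        (θ x * (θ x - ∑ j, u j t x) * u i₀ t x +
          (∑ j ∈ A, (d j * φ'' j x + m x * φ j x -
            φ j x * ∑ j, u j t x) * u j t x) + θ x ^ 2 * ((∑ j, u j t x) - θ x)) := by
      have hs1 : (∑ j ∈ A, φ j x * ut j t x) -
          (∑ j ∈ A, d j * (φ j x * w j t x - φ'' j x * u j t x)) =
          ∑ j ∈ A, (d j * φ'' j x + m x * φ j x -
            φ j x * ∑ j, u j t x) * u j t x := by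
        rw [← Finset.sum_sub_distrib]
        refine Finset.sum_congr rfl fun j _ => ?_
        simp only [ut]
        ring
      rw [← hs1]
      simp only [gt, F', ut]
      have hθeq : d i₀ * θ'' x = -(θ x * (m x - θ x)) := by
        have := hθ.eq x hx
        linarith
      generalize (∑ j, u j t x) = U
      generalize (∑ j ∈ A, φ j x * (d j * w j t x + u j t x * (m x - U))) = A'
      generalize (∑ j ∈ A, d j * (φ j x * w j t x - φ'' j x * u j t x)) = B
      field_simp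
      have : θ'' x = -(θ x * (m x - θ x)) / d i₀ := by
        rw [eq_div_iff hd0]; linarith
      rw [this]
      field_simp
      ring
    rw [E]
    have hsqn : 0 ≤ d i₀ * (θ x * (v i₀ t x / u i₀ t x) - θ' x) ^ 2 := by
      have := (hd i₀).le
      positivity
    linarith

end Pool.Agent.Lib.MP_4fbe7c_an.FC.H50
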