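import Pool.Agent.Lib.MP_4fbe7c_an.FC.Iface
import Pool.Agent.Lib.MP_4fbe7c_an.SD.Int
import Pool.Agent.Lib.MP_4fbe7c_an.SD.Lyap

/-!
Module VFN (helper50): the functional `∫ (U - θ log u)`.
-/

set_option autoImplicit false

open Set

namespace Pool.Agent.Lib.MP_4fbe7c_an.FC.H50

open Pool.Agent.Lib.MP_4fbe7c_an.SD Pool.Agent.Lib.MP_4fbe7c_an.SD.Lyap

theorem ii' {L : ℝ} (hL : 0 < L) {f : ℝ → ℝ} (hf : ContinuousOn f (Icc 0 L)) :
    IntervalIntegrable f MeasureTheory.volume 0 L := by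
  apply ContinuousOn.intervalIntegrable
  rwa [uIcc_of_le hL.le]

/-- `r - θ log r` is minimal at `r = θ`. -/
theorem log_min {θ r : ℝ} (hθ : 0 < θ) (hr : 0 < r) :
    θ - θ * Real.log θ ≤ r - θ * Real.log r := by
  have h1 : Real.log (r / θ) ≤ r / θ - 1 := Real.log_le_sub_one_of_pos (by positivity)
  rw [Real.log_div hr.ne' hθ.ne'] at h1
  have h2 := mul_le_mul_of_nonneg_left h1 hθ.le
  have h3 : θ * (r / θ - 1) = r - θ := by field_simp
  rw [h3] at h2
  linarith

theorem vfn (h1 : ThtStatement) : VfnStatement := by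
  intro L M m₀ Λ m m' θ θ' θ'' N d u v w i hC hm₀ hmd hmc hml hmΛ hθ hp
  have hL := hC.hL
  have h := hC.sol
  have hd := hC.hd i
  obtain ⟨t1, t2, t3⟩ := h1 L m₀ Λ (d i) m m' θ θ' θ'' hL hm₀ hd hmd hmc hml hmΛ hθ
  have cu : ∀ i, ContinuousOn (fun p : ℝ × ℝ => u i p.1 p.2) (Ioi 0 ×ˢ Icc 0 L) := fun i =>
    (h.cu i).mono (prod_mono Ioi_subset_Ici_self subset_rfl)
  have spm : ContinuousOn (fun p : ℝ × ℝ => m p.2) (Ioi 0 ×ˢ Icc 0 L) := space_continuousOn hC.hm
  have cθ : ContinuousOn θ (Icc 0 L) := hθ.d1.continuousOn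
  have cθ' : ContinuousOn θ' (Icc 0 L) := hθ.d2.continuousOn
  have spθ : ContinuousOn (fun p : ℝ × ℝ => θ p.2) (Ioi 0 ×ˢ Icc 0 L) := space_continuousOn cθ
  have hne : ∀ p ∈ (Ioi (0 : ℝ)) ×ˢ (Icc 0 L), u i p.1 p.2 ≠ 0 := fun p hp' =>
    (hp p.1 hp'.1 p.2 hp'.2).ne'
  have hu0 := nonneg hL hC.hm hC.hd h
  let ut : Fin N → ℝ → ℝ → ℝ := fun k s x => d k * w k s x + u k s x * (m x - ∑ j, u j s x)
  have cut : ∀ k, ContinuousOn (fun p : ℝ × ℝ => ut k p.1 p.2) (Ioi 0 ×ˢ Icc 0 L) := by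
    intro k
    have h1 : ContinuousOn (fun p : ℝ × ℝ => ∑ j, u j p.1 p.2) (Ioi 0 ×ˢ Icc 0 L) :=
      continuousOn_finsetSum _ fun j _ => cu j
    exact ((h.cw k).const_mul (d k)).add ((cu k).mul (spm.sub h1))
  let g : ℝ → ℝ → ℝ := fun s x => (∑ k, u k s x) - θ x * Real.log (u i s x)
  let gt : ℝ → ℝ → ℝ := fun s x => (∑ k, ut k s x) - θ x * (ut i s x / u i s x)
  have cg : ContinuousOn (fun p : ℝ × ℝ => g p.1 p.2) (Ioi 0 ×ˢ Icc 0 L) :=
    (continuousOn_finsetSum _ fun j _ => cu j).sub (spθ.mul ((cu i).log hne))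
  have cgt : ContinuousOn (fun p : ℝ × ℝ => gt p.1 p.2) (Ioi 0 ×ˢ Icc 0 L) :=
    (continuousOn_finsetSum _ fun j _ => cut j).sub (spθ.mul ((cut i).div (cu i) hne))
  have hV := hasDerivAt_integral hL cg cgt (fun s hs x hx => by
    have h2 : ∀ j ∈ Finset.univ, HasDerivAt (fun r => u j r x) (ut j s x) s :=
      fun j _ => h.dt j s hs x hx
    exact (HasDerivAt.fun_sum h2).sub
      (((h.dt i s hs x hx).log (hp s hs x hx).ne').const_mul (θ x)))
  let V : ℝ → ℝ := fun t => ∫ x in (0)..L, g t x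
  let V' : ℝ → ℝ := fun t => ∫ x in (0)..L, gt t x
  refine ⟨fun t => 2 * V t, fun t => 2 * V' t, -(2 * ∫ x in (0)..L, (θ x - θ x * Real.log (θ x))),
    1, one_pos, fun t ht1 => ?_⟩
  have ht : 0 < t := lt_of_lt_of_le one_pos ht1
  have su : ∀ i, ContinuousOn (u i t) (Icc 0 L) := fun i => slice_continuousOn ht (cu i)
  have sv : ∀ i, ContinuousOn (v i t) (Icc 0 L) := fun i => slice_continuousOn ht (h.cv i)
  have sw : ∀ i, ContinuousOn (w i t) (Icc 0 L) := fun i => slice_continuousOn ht (h.cw i)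
  have sne : ∀ x ∈ Icc 0 L, u i t x ≠ 0 := fun x hx => (hp t ht x hx).ne'
  refine ⟨(hV t ht).const_mul 2, ?_, ?_⟩
  · have ce1 : ContinuousOn (fun x => v i t x / u i t x) (Icc 0 L) := (sv i).div (su i) sne
    have sU : ContinuousOn (fun x => ∑ k, u k t x) (Icc 0 L) :=
      continuousOn_finsetSum _ fun j _ => su j
    have sgt : ContinuousOn (gt t) (Icc 0 L) := slice_continuousOn ht cgt
    -- the divergence term
    let J' : ℝ → ℝ := fun x => (∑ k, d k * w k t x) -
      d i * (θ' x * (v i t x / u i t x) +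
        θ x * ((w i t x * u i t x - v i t x * v i t x) / u i t x ^ 2))
    have hJ : DerivOn L (fun x => (∑ k, d k * v k t x) - d i * (θ x * (v i t x / u i t x))) J' := by
      intro x hx
      have a2 : ∀ j ∈ Finset.univ, HasDerivWithinAt
          (fun y => d j * v j t y) (d j * w j t x) (Icc 0 L) x := fun j _ =>
        (h.dxx j t ht x hx).const_mul (d j)
      exact (HasDerivWithinAt.fun_sum a2).sub
        (((hθ.d1 x hx).mul ((h.dxx i t ht x hx).div (h.dx i t ht x hx) (sne x hx))).const_mul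
          (d i))
    have cJ' : ContinuousOn J' (Icc 0 L) := by
      have s1 : ContinuousOn (fun x => ∑ k, d k * w k t x) (Icc 0 L) :=
        continuousOn_finsetSum _ fun j _ => (sw j).const_mul (d j)
      refine s1.sub (((cθ'.mul ce1).add (cθ.mul ?_)).const_mul (d i))
      exact (((sw i).mul (su i)).sub ((sv i).mul (sv i))).div ((su i).pow 2)
        fun x hx => pow_ne_zero 2 (sne x hx)
    have hJint := integral_deriv hL hJ cJ'
    simp only [h.b0 _ t ht, h.bL _ t ht, zero_div, mul_zero, sub_zero, Finset.sum_const_zero]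
      at hJint
    have key : ∀ x ∈ Icc 0 L, gt t x ≤ J' x - (m x - ∑ k, u k t x) ^ 2 / 2 +
        (m x - θ x) ^ 2 / 2 + d i / (4 * m₀) * θ' x ^ 2 := by
      intro x hx
      have hux := hp t ht x hx
      have hθx := t1 x hx
      have hθ0 : 0 < θ x := hm₀.trans_le hθx
      set a : ℝ := v i t x / u i t x with ha
      have e1 : (w i t x * u i t x - v i t x * v i t x) / u i t x ^ 2 =
          w i t x / u i t x - a ^ 2 := by
        rw [ha]; field_simp
      have e2 : ut i t x / u i t x = d i * (w i t x / u i t x) + (m x - ∑ k, u k t x) := by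
        simp only [ut]
        field_simp
      have e3 : ∑ k, ut k t x = (∑ k, d k * w k t x) +
          (∑ k, u k t x) * (m x - ∑ k, u k t x) := by
        simp only [ut]
        rw [Finset.sum_add_distrib, Finset.sum_mul]
      have e4 : gt t x = J' x + ((∑ k, u k t x) - θ x) * (m x - ∑ k, u k t x) +
          d i * (θ' x * a - θ x * a ^ 2) := by
        simp only [gt, J']
        rw [e1, e2, e3]
        ring
      rw [e4]
      generalize (∑ k, u k t x) = U
      have i1 : (U - θ x) * (m x - U) ≤ -((m x - U) ^ 2 / 2) + (m x - θ x) ^ 2 / 2 := by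
        nlinarith [sq_nonneg ((m x - U) - (m x - θ x))]
      have i2 : θ' x * a - θ x * a ^ 2 ≤ θ' x ^ 2 / (4 * m₀) := by
        have j1 : θ' x * a - θ x * a ^ 2 ≤ θ' x * a - m₀ * a ^ 2 := by
          have := mul_le_mul_of_nonneg_right hθx (sq_nonneg a)
          linarith
        have j2 : θ' x ^ 2 / (4 * m₀) - (θ' x * a - m₀ * a ^ 2) =
            (θ' x - 2 * m₀ * a) ^ 2 / (4 * m₀) := by
          field_simp
          ring
        have j3 : 0 ≤ (θ' x - 2 * m₀ * a) ^ 2 / (4 * m₀) := by positivity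
        linarith
      have i3 := mul_le_mul_of_nonneg_left i2 hd.le
      have i4 : d i * (θ' x ^ 2 / (4 * m₀)) = d i / (4 * m₀) * θ' x ^ 2 := by ring
      linarith
    have I1 : IntervalIntegrable J' MeasureTheory.volume 0 L := ii' hL cJ'
    have I2 : IntervalIntegrable (fun x => (m x - ∑ k, u k t x) ^ 2 / 2)
      MeasureTheory.volume 0 L := ii' hL (((hC.hm.sub sU).pow 2).div_const 2)
    have I3 : IntervalIntegrable (fun x => (m x - θ x) ^ 2 / 2)
      MeasureTheory.volume 0 L := ii' hL (((hC.hm.sub cθ).pow 2).div_const 2)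
    have I4 : IntervalIntegrable (fun x => d i / (4 * m₀) * θ' x ^ 2)
      MeasureTheory.volume 0 L := ii' hL ((cθ'.pow 2).const_mul _)
    have h3 := intervalIntegral.integral_mono_on hL.le (ii' hL sgt)
      (((I1.sub I2).add I3).add I4) key
    rw [intervalIntegral.integral_add ((I1.sub I2).add I3) I4,
      intervalIntegral.integral_add (I1.sub I2) I3, intervalIntegral.integral_sub I1 I2,
      intervalIntegral.integral_const_mul, intervalIntegral.integral_div,
      intervalIntegral.integral_div, hJint] at h3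
    have h4 : d i / (4 * m₀) * (∫ x in (0)..L, θ' x ^ 2) ≤ d i / (4 * m₀) * Λ :=
      mul_le_mul_of_nonneg_left t2 (by positivity)
    have hΛ : 0 ≤ Λ := le_trans (intervalIntegral.integral_nonneg hL.le fun x _ => sq_nonneg _) hmΛ
    have h5 : d i / (4 * m₀) * Λ = d i * (Λ / m₀) / 4 := by field_simp
    have h6 : d i * Λ / (4 * m₀) = d i * (Λ / m₀) / 4 := by field_simp
    have h7 : 0 ≤ d i * (Λ / m₀) := by positivity
    show R2 L m u t ≤ -(2 * V' t) + d i * (Λ / m₀)
    have h8 : V' t ≤ 0 - R2 L m u t / 2 + (∫ x in (0)..L, (m x - θ x) ^ 2) / 2 +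
        d i / (4 * m₀) * (∫ x in (0)..L, θ' x ^ 2) := h3
    linarith
  · have I1 : IntervalIntegrable (fun x => θ x - θ x * Real.log (θ x))
      MeasureTheory.volume 0 L := ii' hL (cθ.sub (cθ.mul (cθ.log fun x hx => (hθ.pos x hx).ne')))
    have I2 : IntervalIntegrable (g t) MeasureTheory.volume 0 L :=
      ii' hL (slice_continuousOn ht cg)
    have h3 := intervalIntegral.integral_mono_on hL.le I1 I2 (fun x hx => by
      have a1 := log_min (hθ.pos x hx) (hp t ht x hx)
      have a2 : u i t x ≤ ∑ k, u k t x :=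
        Finset.single_le_sum (f := fun j => u j t x) (fun j _ => hu0 j t ht.le x hx)
          (Finset.mem_univ i)
      show θ x - θ x * Real.log (θ x) ≤ (∑ k, u k t x) - θ x * Real.log (u i t x)
      linarith)
    show -(-(2 * ∫ x in (0)..L, (θ x - θ x * Real.log (θ x)))) ≤ 2 * V t
    have h4 : (∫ x in (0)..L, (θ x - θ x * Real.log (θ x))) ≤ V t := h3
    linarith

end Pool.Agent.Lib.MP_4fbe7c_an.FC.H50
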